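import Pool.Agent.W367.SN.Irr
import Pool.Agent.TH195.KR.Chars

set_option autoImplicit false

/-!
# The formula of Frobenius and Mednykh for the number of homomorphisms from a surface group
-/

open CategoryTheory

namespace Pool.Agent.TH986.SG

open Pool.Agent.W367.SN

/-- the product of the commutators `[a_i, b_i]` -/
def sw {H : Type} [Group H] {g : ℕ} (x : Fin g → H × H) : H :=
  (List.ofFn fun i => (x i).1 * (x i).2 * (x i).1⁻¹ * (x i).2⁻¹).prod

section

variable {H : Type} [Group H]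

/-- irreducible matrix representations in the form of the scalar commutant -/
def Sc {n : ℕ} (ρ : H →* Matrix (Fin n) (Fin n) ℂ) : Prop :=
  ∀ X : Matrix (Fin n) (Fin n) ℂ, (∀ g, X * ρ g = ρ g * X) → ∃ c : ℂ, X = c • 1

theorem trace_smul_one {n : ℕ} (c : ℂ) :
    (c • (1 : Matrix (Fin n) (Fin n) ℂ)).trace = c * n := by
  rw [Matrix.trace_smul, Matrix.trace_one, Fintype.card_fin, smul_eq_mul]

variable [Fintype H]

theorem sum_conj {n : ℕ} (hn : 0 < n) {ρ : H →* Matrix (Fin n) (Fin n) ℂ} (hρ : Sc ρ) (b : H) :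
    ∑ a, ρ (a * b * a⁻¹) = ((Fintype.card H : ℂ) * (ρ b).trace / n) •
      (1 : Matrix (Fin n) (Fin n) ℂ) := by
  have hn0 : (n : ℂ) ≠ 0 := by exact_mod_cast hn.ne'
  obtain ⟨c, hc⟩ := hρ (∑ a, ρ (a * b * a⁻¹)) (fun g => by
    rw [Finset.sum_mul, Finset.mul_sum, ← Equiv.sum_comp (Equiv.mulLeft g)]
    refine Finset.sum_congr rfl fun a _ => ?_
    rw [← map_mul, ← map_mul]
    congr 1
    simp only [Equiv.coe_mulLeft]
    group)
  rw [hc]
  congr 1
  have h1 := congrArg Matrix.trace hc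
  rw [trace_smul_one, Matrix.trace_sum] at h1
  have h2 : ∀ a : H, (ρ (a * b * a⁻¹)).trace = (ρ b).trace := by
    intro a
    rw [map_mul, Matrix.trace_mul_comm, ← map_mul]
    congr 2
    group
  simp only [h2, Finset.sum_const, nsmul_eq_mul] at h1
  rw [Finset.card_univ] at h1
  field_simp
  exact h1.symm

/-- orthogonality -/
theorem sum_trace {n : ℕ} (hn : 0 < n) {ρ : H →* Matrix (Fin n) (Fin n) ℂ} (hρ : Sc ρ) :
    ∑ g, (ρ g).trace * (ρ g⁻¹).trace = Fintype.card H := by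
  have hn0 : (n : ℂ) ≠ 0 := by exact_mod_cast hn.ne'
  have h1 : ∀ E : Matrix (Fin n) (Fin n) ℂ, ∑ g, ρ g * E * ρ g⁻¹ =
      ((Fintype.card H : ℂ) * E.trace / n) • (1 : Matrix (Fin n) (Fin n) ℂ) := by
    intro E
    obtain ⟨c, hc⟩ := hρ (∑ g, ρ g * E * ρ g⁻¹) (fun u => by
      rw [Finset.sum_mul, Finset.mul_sum, ← Equiv.sum_comp (Equiv.mulLeft u)]
      refine Finset.sum_congr rfl fun a _ => ?_
      simp only [Equiv.coe_mulLeft, map_mul, mul_inv_rev, mul_assoc]
      rw [← map_mul ρ u⁻¹ u, inv_mul_cancel, map_one, mul_one])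
    rw [hc]
    congr 1
    have h1 := congrArg Matrix.trace hc
    rw [trace_smul_one, Matrix.trace_sum] at h1
    have h2 : ∀ a : H, (ρ a * E * ρ a⁻¹).trace = E.trace := by
      intro a
      rw [Matrix.trace_mul_comm, ← mul_assoc, ← map_mul, inv_mul_cancel, map_one, one_mul]
    simp only [h2, Finset.sum_const, nsmul_eq_mul] at h1
    rw [Finset.card_univ] at h1
    field_simp
    exact h1.symm
  have h2 : ∀ i k : Fin n, ∑ g, ρ g i i * ρ g⁻¹ k k =
      if i = k then (Fintype.card H : ℂ) / n else 0 := by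
    intro i k
    have h3 := congrFun (congrFun (h1 (Matrix.single i k 1)) i) k
    rw [Matrix.sum_apply] at h3
    have h4 : ∀ g, (ρ g * Matrix.single i k (1 : ℂ) * ρ g⁻¹) i k = ρ g i i * ρ g⁻¹ k k := by
      intro g
      rw [Matrix.mul_apply, Finset.sum_eq_single k]
      · rw [Matrix.mul_single_apply_same, mul_one]
      · intro j _ hj
        rw [Matrix.mul_single_apply_of_ne (hbj := hj), zero_mul]
      · intro h
        exact absurd (Finset.mem_univ _) h
    simp only [h4] at h3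
    rw [h3]
    by_cases hik : i = k
    · subst hik
      simp [Matrix.trace_single_eq_same]
    · rw [if_neg hik, Matrix.smul_apply, Matrix.one_apply_ne hik, smul_zero]
  simp only [Matrix.trace, Matrix.diag_apply, Finset.sum_mul_sum]
  rw [Finset.sum_comm]
  have h3 : ∀ i : Fin n, ∑ g, ∑ k, ρ g i i * ρ g⁻¹ k k = (Fintype.card H : ℂ) / n := by
    intro i
    rw [Finset.sum_comm]
    simp only [h2]
    simp
  simp only [h3, Finset.sum_const, Finset.card_univ, Fintype.card_fin, nsmul_eq_mul]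
  field_simp

theorem sum_char {n : ℕ} (hn : 0 < n) {ρ : H →* Matrix (Fin n) (Fin n) ℂ} (hρ : Sc ρ) :
    ∑ b, (ρ b).trace • ρ b⁻¹ = ((Fintype.card H : ℂ) / n) • (1 : Matrix (Fin n) (Fin n) ℂ) := by
  have hn0 : (n : ℂ) ≠ 0 := by exact_mod_cast hn.ne'
  obtain ⟨c, hc⟩ := hρ (∑ b, (ρ b).trace • ρ b⁻¹) (fun u => by
    rw [Finset.sum_mul, Finset.mul_sum, ← Equiv.sum_comp (MulAut.conj u).toEquiv]
    refine Finset.sum_congr rfl fun a _ => ?_
    change (ρ (u * a * u⁻¹)).trace • ρ (u * a * u⁻¹)⁻¹ * ρ u = _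
    have e1 : (ρ (u * a * u⁻¹)).trace = (ρ a).trace := by
      rw [map_mul, Matrix.trace_mul_comm, ← map_mul]
      congr 2
      group
    rw [e1, Matrix.smul_mul, Matrix.mul_smul, ← map_mul, ← map_mul]
    congr 2
    group)
  rw [hc]
  congr 1
  have h1 := congrArg Matrix.trace hc
  rw [trace_smul_one, Matrix.trace_sum] at h1
  simp only [Matrix.trace_smul, smul_eq_mul] at h1
  rw [sum_trace hn hρ] at h1
  field_simp
  exact h1.symm

/-- the sum of all commutators -/
theorem sum_comm' {n : ℕ} (hn : 0 < n) {ρ : H →* Matrix (Fin n) (Fin n) ℂ} (hρ : Sc ρ) :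
    ∑ x : H × H, ρ (x.1 * x.2 * x.1⁻¹ * x.2⁻¹) = (((Fintype.card H : ℂ) / n) ^ 2) •
      (1 : Matrix (Fin n) (Fin n) ℂ) := by
  rw [Fintype.sum_prod_type_right]
  have h1 : ∀ b : H, ∑ a, ρ (a * b * a⁻¹ * b⁻¹) = ((Fintype.card H : ℂ) / n) • ((ρ b).trace • ρ b⁻¹) := by
    intro b
    have h2 : ∀ a, ρ (a * b * a⁻¹ * b⁻¹) = ρ (a * b * a⁻¹) * ρ b⁻¹ := by
      intro a
      rw [← map_mul]
    simp only [h2]
    rw [← Finset.sum_mul, sum_conj hn hρ, Matrix.smul_mul, one_mul, smul_smul]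
    congr 1
    ring
  simp only [h1]
  rw [← Finset.smul_sum, sum_char hn hρ, smul_smul, sq]

/-- the sum of all products of `g` commutators -/
theorem sum_sw {n : ℕ} (hn : 0 < n) {ρ : H →* Matrix (Fin n) (Fin n) ℂ} (hρ : Sc ρ) (g : ℕ) :
    ∑ x : Fin g → H × H, ρ (sw x) = (((Fintype.card H : ℂ) / n) ^ (2 * g)) •
      (1 : Matrix (Fin n) (Fin n) ℂ) := by
  induction g with
  | zero =>
    simp [sw]
  | succ g ih =>
    rw [← Equiv.sum_comp (Fin.consEquiv (fun _ => H × H)), Fintype.sum_prod_type]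
    have h1 : ∀ (a : H × H) (y : Fin g → H × H),
        ρ (sw ((Fin.consEquiv (fun _ => H × H)) (a, y))) = ρ (a.1 * a.2 * a.1⁻¹ * a.2⁻¹) * ρ (sw y) := by
      intro a y
      rw [← map_mul]
      congr 1
      simp [sw, List.ofFn_succ]
    simp only [h1]
    simp only [← Finset.mul_sum]
    rw [← Finset.sum_mul, ih, sum_comm' hn hρ, Matrix.smul_mul, one_mul, smul_smul]
    congr 1
    ring

end

end Pool.Agent.TH986.SG
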