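import Pool.Agent.TH986.SG.Ch

set_option autoImplicit false

/-!
# The number of homomorphisms from a surface group, modulo powers of `p`
-/

open CategoryTheory

namespace Pool.Agent.TH986.SG

open Pool.Agent.W367.SN Pool.Agent.TH195.KR

section

variable {H : Type} [Group H] [Fintype H]

/-- the regular character -/
theorem regular [DecidableEq H] (I : Finset (H → ℂ)) (hI : ∀ χ, χ ∈ I ↔ χ ∈ IrrC H) (h : H) :
    ∑ χ ∈ I, χ 1 * χ h = if h = 1 then (Fintype.card H : ℂ) else 0 := by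
  have h1 := irr_complete (Γ := H) (fun h => (if h = 1 then (Fintype.card H : ℂ) else 0) -
    ∑ χ ∈ I, χ 1 * χ h) (by
      intro g u
      have e1 : (u * g * u⁻¹ = 1) ↔ g = 1 := by
        constructor
        · intro h
          have : g = u⁻¹ * (u * g * u⁻¹) * u := by group
          rw [this, h]
          group
        · rintro rfl
          group
      simp only [e1]
      congr 1
      exact Finset.sum_congr rfl fun χ hχ => by rw [irr_class ((hI χ).1 hχ)]) (by
      intro ψ hψ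
      simp only [sub_mul, Finset.sum_sub_distrib, ite_mul, zero_mul]
      rw [Finset.sum_ite_eq' Finset.univ (1 : H), if_pos (Finset.mem_univ _), inv_one]
      have h2 : ∑ g, (∑ χ ∈ I, χ 1 * χ g) * ψ g⁻¹ = ∑ χ ∈ I, χ 1 * ∑ g, χ g * ψ g⁻¹ := by
        simp only [Finset.sum_mul, Finset.mul_sum]
        rw [Finset.sum_comm]
        exact Finset.sum_congr rfl fun χ _ => Finset.sum_congr rfl fun g _ => by ring
      rw [h2, Finset.sum_eq_single ψ]
      · rw [irr_norm hψ]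
        ring
      · intro χ hχ hne
        rw [irr_orth ((hI χ).1 hχ) hψ hne, mul_zero]
      · intro h
        exact absurd ((hI ψ).2 hψ) h)
  have h2 := congrFun h1 h
  exact (sub_eq_zero.1 h2).symm

/-- `|H| / χ(1)` is an integer -/
theorem deg_dvd {χ : H → ℂ} (h : χ ∈ IrrC H) :
    ∃ n q : ℕ, 0 < n ∧ χ 1 = n ∧ n * q = Fintype.card H := by
  obtain ⟨n, hn, ρ, hρ, hs⟩ := exists_matrix h
  have hn0 : (n : ℂ) ≠ 0 := by exact_mod_cast hn.ne'
  have hne : Nonempty (Fin n) := ⟨⟨0, hn⟩⟩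
  refine ⟨n, ?_⟩
  have h1 : χ 1 = n := by rw [hρ, map_one, Matrix.trace_one, Fintype.card_fin]
  -- integrality
  let f : MonoidAlgebra ℤ H →ₐ[ℤ] Matrix (Fin n) (Fin n) ℂ := MonoidAlgebra.lift ℤ _ H ρ
  let z : MonoidAlgebra ℤ H := ∑ x : H × H, MonoidAlgebra.of ℤ H (x.1 * x.2 * x.1⁻¹ * x.2⁻¹)
  have hz : IsIntegral ℤ z := Algebra.IsIntegral.isIntegral z
  have hfz : f z = algebraMap ℂ (Matrix (Fin n) (Fin n) ℂ) (((Fintype.card H : ℂ) / n) ^ 2) := by
    rw [Algebra.algebraMap_eq_smul_one, ← sum_comm' hn hs]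
    simp only [z, map_sum]
    refine Finset.sum_congr rfl fun x _ => ?_
    exact MonoidAlgebra.lift_of ρ _
  have h2 : IsIntegral ℤ (((Fintype.card H : ℂ) / n) ^ 2) := by
    have h3 := hz.map f
    rw [hfz] at h3
    exact (isIntegral_algebraMap_iff (FaithfulSMul.algebraMap_injective ℂ
      (Matrix (Fin n) (Fin n) ℂ))).1 h3
  have h3 : IsIntegral ℤ ((Fintype.card H : ℂ) / n) := IsIntegral.of_pow (by norm_num) h2
  have h4 : IsIntegral ℤ (((Fintype.card H : ℚ) / n)) := by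
    have e : (Fintype.card H : ℂ) / n = algebraMap ℚ ℂ ((Fintype.card H : ℚ) / n) := by
      simp
    rw [e] at h3
    exact (isIntegral_algebraMap_iff (algebraMap ℚ ℂ).injective).1 h3
  obtain ⟨y, hy⟩ := IsIntegrallyClosed.isIntegral_iff.1 h4
  have hnq : (n : ℚ) ≠ 0 := by exact_mod_cast hn.ne'
  have h5 : (n : ℚ) * y = Fintype.card H := by
    have : (y : ℚ) = (Fintype.card H : ℚ) / n := by simpa using hy
    rw [this]
    field_simp
  have h6 : (n : ℤ) * y = Fintype.card H := by exact_mod_cast h5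
  have h7 : 0 ≤ y := by
    by_contra hneg
    have h8 : y < 0 := not_le.1 hneg
    have h9 : (0 : ℤ) < n := by exact_mod_cast hn
    have h10 : (0 : ℤ) ≤ (Fintype.card H : ℤ) := Int.natCast_nonneg _
    nlinarith
  refine ⟨y.toNat, hn, h1, ?_⟩
  have h8 : ((n * y.toNat : ℕ) : ℤ) = Fintype.card H := by
    push_cast
    rw [Int.toNat_of_nonneg h7]
    exact h6
  exact_mod_cast h8

/-- the formula of Frobenius and Mednykh -/
theorem card_sw : ∃ (I : Finset (H → ℂ)) (q : (H → ℂ) → ℕ), (∀ χ, χ ∈ I ↔ χ ∈ IrrC H) ∧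
    (∀ χ ∈ I, ∃ n : ℕ, 0 < n ∧ χ 1 = n ∧ n * q χ = Fintype.card H) ∧
    ∀ g : ℕ, 1 ≤ g → Nat.card {x : Fin g → H × H // sw x = 1} =
      Fintype.card H * ∑ χ ∈ I, q χ ^ (2 * g - 2) := by
  classical
  let I : Finset (H → ℂ) := irr_finite.toFinset
  have hI : ∀ χ, χ ∈ I ↔ χ ∈ IrrC H := fun χ => by simp [I]
  have hq : ∀ χ : H → ℂ, ∃ q : ℕ, χ ∈ I → ∃ n : ℕ, 0 < n ∧ χ 1 = n ∧ n * q = Fintype.card H := by
    intro χ
    by_cases hχ : χ ∈ I
    · obtain ⟨n, q, h0, h1, h2⟩ := deg_dvd ((hI χ).1 hχ)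
      exact ⟨q, fun _ => ⟨n, h0, h1, h2⟩⟩
    · exact ⟨0, fun h => absurd h hχ⟩
  choose q hq using hq
  refine ⟨I, q, hI, hq, fun g hg => ?_⟩
  have hH0 : (Fintype.card H : ℂ) ≠ 0 := by exact_mod_cast Fintype.card_ne_zero
  have h1 : (Nat.card {x : Fin g → H × H // sw x = 1} : ℂ) * Fintype.card H =
      ∑ χ ∈ I, χ 1 * ∑ x : Fin g → H × H, χ (sw x) := by
    have h2 : ∑ x : Fin g → H × H, (if sw x = 1 then (Fintype.card H : ℂ) else 0) =
        ∑ χ ∈ I, χ 1 * ∑ x : Fin g → H × H, χ (sw x) := by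
      simp only [← regular I hI, Finset.mul_sum]
      rw [Finset.sum_comm]
    rw [← h2, Nat.card_eq_fintype_card, Fintype.card_subtype, ← Finset.sum_filter,
      Finset.sum_const, nsmul_eq_mul]
  have h3 : ∀ χ ∈ I, χ 1 * ∑ x : Fin g → H × H, χ (sw x) =
      (Fintype.card H : ℂ) ^ 2 * (q χ : ℂ) ^ (2 * g - 2) := by
    intro χ hχ
    obtain ⟨n, hn, ρ, hρ, hs⟩ := exists_matrix ((hI χ).1 hχ)
    have hn0 : (n : ℂ) ≠ 0 := by exact_mod_cast hn.ne'
    obtain ⟨n', hn', h4, h5⟩ := hq χ hχ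
    have h6 : χ 1 = n := by rw [hρ, map_one, Matrix.trace_one, Fintype.card_fin]
    have h7 : n' = n := by
      have : (n' : ℂ) = n := h4.symm.trans h6
      exact_mod_cast this
    subst h7
    have h8 : (Fintype.card H : ℂ) / n' = q χ := by
      rw [← h5]
      push_cast
      field_simp
    have h9 : ∑ x : Fin g → H × H, χ (sw x) = (q χ : ℂ) ^ (2 * g) * n' := by
      have h10 := congrArg Matrix.trace (sum_sw hn hs g)
      rw [trace_smul_one, Matrix.trace_sum, h8] at h10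
      rw [← h10]
      exact Finset.sum_congr rfl fun x _ => hρ _
    have h11 : (Fintype.card H : ℂ) = n' * q χ := by
      rw [← h5]
      push_cast
      ring
    have e : 2 * g = 2 + (2 * g - 2) := by omega
    rw [h9, h6, h11]
    conv_lhs => rw [e, pow_add]
    ring
  rw [Finset.sum_congr rfl h3, ← Finset.mul_sum, sq] at h1
  have h4 : (Nat.card {x : Fin g → H × H // sw x = 1} : ℂ) =
      (Fintype.card H : ℂ) * ∑ χ ∈ I, (q χ : ℂ) ^ (2 * g - 2) := by
    apply mul_right_cancel₀ hH0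
    rw [h1]
    ring
  exact_mod_cast h4

end

end Pool.Agent.TH986.SG
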