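import Pool.Agent.TH986.SG.Ch

set_option autoImplicit false

/-!
# Homomorphisms from a surface group to a group with a normal `p`-subgroup
-/

namespace Pool.Agent.TH986.SG

section

variable {A N H : Type} [Group A] [Group N] [Group H]

/-- `w (x ι(v)) = w(x) D(v)` with a homomorphism `D` to `V` -/
def Good (ι : N →* A) (V : Subgroup H) (w : A → H) : Prop :=
  ∀ x : A, ∃ D : N → H, (∀ v, D v ∈ V) ∧ (∀ u v, D (u * v) = D u * D v) ∧
    ∀ v : N, w (x * ι v) = w x * D v

theorem good_one (ι : N →* A) (V : Subgroup H) : Good ι V (fun _ => (1 : H)) := fun _ =>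
  ⟨fun _ => 1, fun _ => one_mem _, fun _ _ => by simp, fun _ => by simp⟩

theorem good_mul {ι : N →* A} {V : Subgroup H} (hV : V.Normal)
    (hc : ∀ a ∈ V, ∀ b ∈ V, a * b = b * a) {w w' : A → H} (h : Good ι V w) (h' : Good ι V w') :
    Good ι V (fun x => w x * w' x) := by
  intro x
  obtain ⟨D, h1, h2, h3⟩ := h x
  obtain ⟨D', h1', h2', h3'⟩ := h' x
  have hm : ∀ v, (w' x)⁻¹ * D v * w' x ∈ V := fun v => by
    simpa using hV.conj_mem _ (h1 v) (w' x)⁻¹
  refine ⟨fun v => (w' x)⁻¹ * D v * w' x * D' v, fun v => mul_mem (hm v) (h1' v), fun u v => ?_,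
    fun v => ?_⟩
  · have h4 := hc _ (hm v) _ (h1' u)
    calc (w' x)⁻¹ * D (u * v) * w' x * D' (u * v)
        = (w' x)⁻¹ * D u * w' x * (((w' x)⁻¹ * D v * w' x) * D' u) * D' v := by
          rw [h2, h2']; group
      _ = (w' x)⁻¹ * D u * w' x * (D' u * ((w' x)⁻¹ * D v * w' x)) * D' v := by rw [h4]
      _ = (w' x)⁻¹ * D u * w' x * D' u * ((w' x)⁻¹ * D v * w' x * D' v) := by group
  · beta_reduce
    rw [h3, h3']
    group

theorem good_inv {ι : N →* A} {V : Subgroup H} (hV : V.Normal)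
    (hc : ∀ a ∈ V, ∀ b ∈ V, a * b = b * a) {w : A → H} (h : Good ι V w) :
    Good ι V (fun x => (w x)⁻¹) := by
  intro x
  obtain ⟨D, h1, h2, h3⟩ := h x
  refine ⟨fun v => w x * (D v)⁻¹ * (w x)⁻¹, fun v => hV.conj_mem _ (inv_mem (h1 v)) _,
    fun u v => ?_, fun v => ?_⟩
  · beta_reduce
    rw [h2, hc _ (h1 u) _ (h1 v)]
    group
  · beta_reduce
    rw [h3]
    group

theorem card_ker_aux {N V : Type} [Group N] [Group V] [Finite N] [Finite V] (D : N →* V) {k : ℕ}
    (hk : 1 ≤ k) (hN : Nat.card N = Nat.card V ^ k) : Nat.card V ^ (k - 1) ∣ Nat.card D.ker := by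
  have h1 : Nat.card D.ker * Nat.card D.range = Nat.card N := by
    rw [← Subgroup.index_ker]
    exact Subgroup.card_mul_index _
  obtain ⟨s, hs⟩ := Subgroup.card_subgroup_dvd_card D.range
  have hr : 0 < Nat.card D.range := Nat.card_pos
  refine ⟨s, Nat.eq_of_mul_eq_mul_right hr ?_⟩
  obtain ⟨j, rfl⟩ : ∃ j, k = j + 1 := ⟨k - 1, by omega⟩
  rw [h1, hN, Nat.add_sub_cancel, pow_succ]
  conv_lhs => rw [hs, ← hs]
  nth_rewrite 2 [hs]
  ring

/-- the number of solutions of a good equation -/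
theorem card_good [Finite A] [Finite N] [Finite H] {ι : N →* A} (hι : Function.Injective ι)
    {V : Subgroup H} {w : A → H} (h : Good ι V w) {k : ℕ} (hk : 1 ≤ k)
    (hN : Nat.card N = Nat.card V ^ k) :
    Nat.card V ^ (k - 1) ∣ Nat.card {x : A // w x = 1} := by
  classical
  let f : {x : A // w x = 1} → A ⧸ ι.range := fun x => QuotientGroup.mk x.1
  have := Fintype.ofFinite (A ⧸ ι.range)
  rw [← Nat.card_congr (Equiv.sigmaFiberEquiv f), Nat.card_sigma]
  refine Finset.dvd_sum fun y _ => ?_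
  by_cases hy : Nonempty {x // f x = y}
  · obtain ⟨⟨⟨x0, hx0⟩, hx0y⟩⟩ := hy
    obtain ⟨D, h1, h2, h3⟩ := h x0
    let D' : N →* V :=
      MonoidHom.mk' (fun v => (⟨D v, h1 v⟩ : V)) (fun u v => Subtype.ext (h2 u v))
    have hD' : ∀ v, (D' v = 1) ↔ D v = 1 := fun v => by
      rw [← Subtype.coe_inj]
      exact Iff.rfl
    have h4 : Nat.card {x // f x = y} = Nat.card D'.ker := by
      refine (Nat.card_congr (Equiv.ofBijective (fun v : D'.ker =>
        (⟨⟨x0 * ι v.1, ?_⟩, ?_⟩ : {x // f x = y})) ⟨?_, ?_⟩)).symm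
      · rw [h3, hx0, one_mul]
        exact (hD' _).1 v.2
      · rw [← hx0y]
        exact (QuotientGroup.eq.2 (by
          show x0⁻¹ * (x0 * ι v.1) ∈ ι.range
          rw [inv_mul_cancel_left]
          exact ⟨v.1, rfl⟩)).symm
      · intro u v huv
        have h5 : x0 * ι u.1 = x0 * ι v.1 := congrArg (fun z => z.1.1) huv
        exact Subtype.ext (hι (mul_left_cancel h5))
      · rintro ⟨⟨x, hx⟩, hxy⟩
        have h5 : x0⁻¹ * x ∈ ι.range := QuotientGroup.eq.1 (hx0y.trans hxy.symm)
        obtain ⟨v, hv⟩ := h5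
        have h6 : x = x0 * ι v := by rw [hv]; group
        refine ⟨⟨v, ?_⟩, ?_⟩
        · rw [MonoidHom.mem_ker, hD']
          have h7 := h3 v
          rw [← h6, hx, hx0, one_mul] at h7
          exact h7.symm
        · exact Subtype.ext (Subtype.ext h6.symm)
    rw [h4]
    exact card_ker_aux D' hk hN
  · have : IsEmpty {x // f x = y} := not_nonempty_iff.1 hy
    rw [show Nat.card {x // f x = y} = 0 from Nat.card_of_isEmpty]
    exact dvd_zero _

end

section

variable {H : Type} [Group H]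

theorem good_sw {N : Type} [Group N] {g : ℕ} {ι : N →* (Fin g → H × H)} {V : Subgroup H}
    (hV : V.Normal) (hc : ∀ a ∈ V, ∀ b ∈ V, a * b = b * a)
    (h : ∀ i, Good ι V (fun x => (x i).1) ∧ Good ι V (fun x => (x i).2)) :
    Good ι V (fun x => sw x) := by
  have h1 : ∀ l : List (Fin g), Good ι V (fun x => (l.map fun i =>
      (x i).1 * (x i).2 * (x i).1⁻¹ * (x i).2⁻¹).prod) := by
    intro l
    induction l with
    | nil => simpa using good_one ι V
    | cons i l ih =>
      simp only [List.map_cons, List.prod_cons]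
      exact good_mul hV hc (good_mul hV hc (good_mul hV hc (good_mul hV hc (h i).1 (h i).2)
        (good_inv hV hc (h i).1)) (good_inv hV hc (h i).2)) ih
  have h2 : (fun x : Fin g → H × H => sw x) = fun x => ((List.finRange g).map fun i =>
      (x i).1 * (x i).2 * (x i).1⁻¹ * (x i).2⁻¹).prod := by
    funext x
    unfold sw
    rw [List.ofFn_eq_map]
  rw [h2]
  exact h1 _

/-- a normal abelian subgroup -/
theorem dvd_of_abelian [Finite H] {V : Subgroup H} (hV : V.Normal)
    (hc : ∀ a ∈ V, ∀ b ∈ V, a * b = b * a) {g : ℕ} (hg : 1 ≤ g) :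
    Nat.card V ^ (2 * g - 1) ∣ Nat.card {x : Fin g → H × H // sw x = 1} := by
  let ι : (Fin g → V × V) →* (Fin g → H × H) :=
    { toFun := fun v i => ((v i).1, (v i).2)
      map_one' := rfl
      map_mul' := fun _ _ => rfl }
  have hι : Function.Injective ι := by
    intro u v huv
    funext i
    have h1 := congrFun huv i
    exact Prod.ext (Subtype.ext (congrArg Prod.fst h1)) (Subtype.ext (congrArg Prod.snd h1))
  have hgood : Good ι V (fun x => sw x) := by
    refine good_sw hV hc fun i => ⟨fun x => ⟨fun v => (v i).1, fun v => (v i).1.2,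
      fun u v => rfl, fun v => rfl⟩, fun x => ⟨fun v => (v i).2, fun v => (v i).2.2,
      fun u v => rfl, fun v => rfl⟩⟩
  refine card_good hι hgood (by omega) ?_
  rw [Nat.card_fun, Nat.card_prod, Nat.card_eq_fintype_card (α := Fin g), Fintype.card_fin, ← sq,
    ← pow_mul]

/-- a nontrivial normal `p`-subgroup -/
theorem dvd_of_pgroup [Finite H] {p : ℕ} (hp : p.Prime) {P : Subgroup H} (hP : P.Normal)
    (hp' : IsPGroup p P) (hne : P ≠ ⊥) {g : ℕ} (hg : 1 ≤ g) :
    p ^ (2 * g - 1) ∣ Nat.card {x : Fin g → H × H // sw x = 1} := by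
  have := Fact.mk hp
  have hnt : Nontrivial P := (Subgroup.nontrivial_iff_ne_bot P).2 hne
  have hZ : Nontrivial (Subgroup.center P) := hp'.center_nontrivial
  let V : Subgroup H := (Subgroup.center P).map P.subtype
  have hV : V.Normal := inferInstance
  have hc : ∀ a ∈ V, ∀ b ∈ V, a * b = b * a := by
    rintro _ ⟨a, ha, rfl⟩ _ ⟨b, hb, rfl⟩
    rw [← map_mul, ← map_mul, Subgroup.mem_center_iff.1 ha b]
  have h1 : Nat.card V = Nat.card (Subgroup.center P) :=
    (Nat.card_congr ((Subgroup.center P).equivMapOfInjective P.subtype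
      P.subtype_injective).toEquiv).symm
  have h2 : p ∣ Nat.card V := by
    rw [h1]
    obtain ⟨n, hn⟩ := (IsPGroup.iff_card).1 (hp'.to_subgroup (Subgroup.center P))
    have h3 : 1 < Nat.card (Subgroup.center P) := Finite.one_lt_card
    rw [hn] at h3 ⊢
    have h4 : n ≠ 0 := by
      rintro rfl
      simp at h3
    exact dvd_pow_self p h4
  exact (pow_dvd_pow_of_dvd h2 _).trans (dvd_of_abelian hV hc hg)

end

end Pool.Agent.TH986.SG
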