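import Pool.Agent.TH986.SG.Zp
import Pool.Agent.TH986.SG.Lift

set_option autoImplicit false

/-!
# The Knörr–Robinson identity and homomorphisms from surface groups
-/

namespace Pool.Agent.TH986.SG

open Pool.Agent.TH195.KR

section

variable {G : Type} [Group G]

/-- the number of homomorphisms from the fundamental group of the closed orientable surface of genus
`g` to the stabilizer of `σ`: the number of the `a_1, b_1, …, a_g, b_g` with
`[a_1, b_1] ⋯ [a_g, b_g] = 1` which normalize all members of `σ` -/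
noncomputable def homs (G : Type) [Group G] (g : ℕ) (σ : Finset (Subgroup G)) : ℕ :=
  Nat.card {x : Fin g → G × G // sw x = 1 ∧ ∀ i, ∀ P ∈ σ,
    (x i).1 ∈ Subgroup.normalizer (P : Set G) ∧ (x i).2 ∈ Subgroup.normalizer (P : Set G)}

/-- the alternating sum over the chains of nontrivial `p`-subgroups of the numbers of homomorphisms
from the surface group to the stabilizers -/
noncomputable def altHoms (p : ℕ) (G : Type) [Group G] (g : ℕ) : ℤ :=
  ∑ᶠ (σ : Finset (Subgroup G)) (_ : IsPChain p G σ), (-1 : ℤ) ^ (σ.card - 1) * (homs G g σ : ℤ)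

/-- the same sum with the empty chain, which has the sign `+`, and the opposite signs -/
noncomputable def F (p : ℕ) (G : Type) [Group G] (g : ℕ) : ℤ :=
  (homs G g ∅ : ℤ) - altHoms p G g

theorem sw_coe {S : Subgroup G} {g : ℕ} (x : Fin g → S × S) :
    ((sw x : S) : G) = sw fun i => (((x i).1 : G), ((x i).2 : G)) := by
  unfold sw
  rw [← Subgroup.coe_subtype, map_list_prod, List.map_ofFn]
  rfl

theorem homs_empty (g : ℕ) : homs G g ∅ = Nat.card {x : Fin g → G × G // sw x = 1} := by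
  unfold homs
  refine Nat.card_congr (Equiv.subtypeEquivRight fun x => ?_)
  simp

/-- the numbers of homomorphisms to the stabilizer of a chain are divisible by a large power of `p` -/
theorem dvd_homs [Finite G] {p : ℕ} (hp : p.Prime) {σ : Finset (Subgroup G)}
    (hσ : IsPChain p G σ) {g : ℕ} (hg : 1 ≤ g) : p ^ (2 * g - 1) ∣ homs G g σ := by
  classical
  obtain ⟨hne, hch, hpp⟩ := hσ
  obtain ⟨P0, hP0⟩ := Finset.exists_minimal hne
  have hmin : ∀ P ∈ σ, P0 ≤ P := by
    intro P hP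
    rcases hch.total hP0.1 hP with h | h
    · exact h
    · exact hP0.2 hP h
  let S : Subgroup G := ⨅ P ∈ σ, Subgroup.normalizer (P : Set G)
  have hS : ∀ y : G, y ∈ S ↔ ∀ P ∈ σ, y ∈ Subgroup.normalizer (P : Set G) := by
    intro y
    simp only [S, Subgroup.mem_iInf]
  have hPS : P0 ≤ S := by
    intro y hy
    rw [hS]
    intro P hP
    exact Subgroup.le_normalizer (hmin P hP hy)
  have hn : (P0.subgroupOf S).Normal := by
    refine ⟨fun y hy s => ?_⟩
    have h1 := (hS s.1).1 s.2 P0 hP0.1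
    exact (Subgroup.mem_normalizer_iff.1 h1 y.1).1 hy
  have hb : P0.subgroupOf S ≠ ⊥ := by
    intro h
    rw [Subgroup.subgroupOf_eq_bot] at h
    exact (hpp P0 hP0.1).2 (disjoint_self.1 (h.mono_right hPS))
  have h1 := dvd_of_pgroup hp hn ((hpp P0 hP0.1).1.comap_subtype) hb hg
  have h2 : homs G g σ = Nat.card {x : Fin g → S × S // sw x = 1} := by
    unfold homs
    refine (Nat.card_congr (Equiv.ofBijective (fun x : {x : Fin g → S × S // sw x = 1} =>
      (⟨fun i => (((x.1 i).1 : G), ((x.1 i).2 : G)), ?_, ?_⟩ : {x : Fin g → G × G // sw x = 1 ∧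
        ∀ i, ∀ P ∈ σ, (x i).1 ∈ Subgroup.normalizer (P : Set G) ∧
          (x i).2 ∈ Subgroup.normalizer (P : Set G)})) ⟨?_, ?_⟩)).symm
    · rw [← sw_coe, x.2, Subgroup.coe_one]
    · intro i P hP
      exact ⟨(hS _).1 (x.1 i).1.2 P hP, (hS _).1 (x.1 i).2.2 P hP⟩
    · intro x y hxy
      apply Subtype.ext
      funext i
      have h3 := congrFun (congrArg Subtype.val hxy) i
      exact Prod.ext (Subtype.ext (congrArg Prod.fst h3)) (Subtype.ext (congrArg Prod.snd h3))
    · rintro ⟨x, hx, hx'⟩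
      refine ⟨⟨fun i => (⟨(x i).1, (hS _).2 fun P hP => (hx' i P hP).1⟩,
        ⟨(x i).2, (hS _).2 fun P hP => (hx' i P hP).2⟩), ?_⟩, rfl⟩
      apply Subtype.ext
      rw [sw_coe, Subgroup.coe_one]
      exact hx
  rw [h2]
  exact h1

theorem dvd_altHoms [Finite G] {p : ℕ} (hp : p.Prime) {g : ℕ} (hg : 1 ≤ g) :
    (p : ℤ) ^ (2 * g - 1) ∣ altHoms p G g := by
  unfold altHoms
  refine finsum_induction (fun z : ℤ => (p : ℤ) ^ (2 * g - 1) ∣ z) (dvd_zero _)
    (fun _ _ => dvd_add) fun σ => finsum_induction (fun z : ℤ => (p : ℤ) ^ (2 * g - 1) ∣ z)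
      (dvd_zero _) (fun _ _ => dvd_add) fun hσ => ?_
  refine Dvd.dvd.mul_left ?_ _
  exact_mod_cast dvd_homs hp hσ hg

theorem N_le {p : ℕ} (hp : p.Prime) {N m : ℕ} (hm : 0 < m) (hφ : Nat.totient (p ^ N) ∣ m) :
    N ≤ m := by
  rcases Nat.eq_zero_or_pos N with rfl | hN
  · exact Nat.zero_le _
  · refine le_trans ?_ (Nat.le_of_dvd hm hφ)
    rw [Nat.totient_prime_pow hp hN]
    have h1 : N - 1 < 2 ^ (N - 1) := Nat.lt_two_pow_self
    have h2 : 2 ^ (N - 1) ≤ p ^ (N - 1) := Nat.pow_le_pow_left hp.two_le _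
    have h3 : 1 ≤ p - 1 := by have := hp.two_le; omega
    calc N ≤ 2 ^ (N - 1) := by omega
      _ ≤ p ^ (N - 1) := h2
      _ ≤ p ^ (N - 1) * (p - 1) := Nat.le_mul_of_pos_right _ h3

/-- the identity near genus one -/
theorem near [Finite G] {p : ℕ} (hp : p.Prime) {N g : ℕ} (hg : 2 ≤ g)
    (hφ : Nat.totient (p ^ N) ∣ 2 * g - 2) :
    (p : ℤ) ^ N ∣ F p G g - (Nat.card G : ℤ) * zp p G := by
  have := Fintype.ofFinite G
  have h1 := hom_modEq (H := G) hp hg hφ
  have h2 : (p : ℤ) ^ N ∣ altHoms p G g :=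
    (pow_dvd_pow _ (by have := N_le hp (by omega : 0 < 2 * g - 2) hφ; omega)).trans
      (dvd_altHoms hp (by omega))
  have h3 : (p : ℤ) ^ N ∣ (homs G g ∅ : ℤ) - (Nat.card G : ℤ) * zp p G := by
    rw [homs_empty]
    have h4 := (Nat.modEq_iff_dvd.1 h1.symm)
    push_cast at h4
    exact h4
  have e : F p G g - (Nat.card G : ℤ) * zp p G =
      ((homs G g ∅ : ℤ) - (Nat.card G : ℤ) * zp p G) - altHoms p G g := by
    unfold F
    ring
  rw [e]
  exact dvd_sub h3 h2

theorem homs_one (σ : Finset (Subgroup G)) : homs G 1 σ = comPairs G σ := by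
  unfold homs comPairs
  refine Nat.card_congr ((Equiv.funUnique (Fin 1) (G × G)).subtypeEquiv fun x => ?_)
  have h1 : sw x = (x 0).1 * (x 0).2 * (x 0).1⁻¹ * (x 0).2⁻¹ := by
    simp [sw]
  have h2 : ((x 0).1 * (x 0).2 * (x 0).1⁻¹ * (x 0).2⁻¹ = 1) ↔
      (x 0).1 * (x 0).2 = (x 0).2 * (x 0).1 := by
    rw [mul_inv_eq_one, mul_inv_eq_iff_eq_mul]
  rw [h1, h2]
  refine and_congr Iff.rfl ⟨fun h => h 0, fun h i => ?_⟩
  rw [Subsingleton.elim i 0]
  exact h

theorem altHoms_one (p : ℕ) : altHoms p G 1 = altSum p G := by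
  unfold altHoms altSum
  simp only [homs_one]

theorem homs_one_empty [Finite G] :
    homs G 1 ∅ = Nat.card (ConjClasses G) * Nat.card G := by
  rw [homs_one, ← card_comm_eq_card_conjClasses_mul_card]
  unfold comPairs
  refine Nat.card_congr (Equiv.subtypeEquivRight fun x => ?_)
  simp [Commute, SemiconjBy]

theorem zp_le [Finite G] {p : ℕ} (hp : p.Prime) : zp p G ≤ Nat.card (ConjClasses G) := by
  have := Fintype.ofFinite G
  obtain ⟨I, q, hI, hq, h1⟩ := card_sw (H := G)
  rw [zp_eq hp I q hI hq]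
  refine (Finset.card_filter_le _ _).trans (le_of_eq ?_)
  have h2 := h1 1 le_rfl
  rw [← homs_empty, homs_one_empty] at h2
  simp only [mul_one, Nat.sub_self, pow_zero, Finset.sum_const, smul_eq_mul] at h2
  rw [Nat.card_eq_fintype_card (α := G), mul_comm] at h2
  exact (Nat.eq_of_mul_eq_mul_left Fintype.card_pos h2).symm

/-- the Knörr–Robinson identity in terms of `F` at genus one -/
theorem krc_iff [Finite G] (p : ℕ) :
    (altSum p G = (Nat.card G : ℤ) * ((Nat.card (ConjClasses G) : ℤ) - (zp p G : ℤ))) ↔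
      F p G 1 = (Nat.card G : ℤ) * zp p G := by
  unfold F
  rw [homs_one_empty, altHoms_one]
  push_cast
  constructor
  · intro h
    rw [h]
    ring
  · intro h
    linarith

/-- continuity at genus one -/
theorem continuity [Finite G] {p : ℕ} (hp : p.Prime) :
    (altSum p G = (Nat.card G : ℤ) * ((Nat.card (ConjClasses G) : ℤ) - (zp p G : ℤ))) ↔
      ∀ N g : ℕ, 2 ≤ g → Nat.totient (p ^ N) ∣ 2 * g - 2 → (p : ℤ) ^ N ∣ F p G g - F p G 1 := by
  rw [krc_iff]
  constructor
  · intro h N g hg hφ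
    rw [h]
    exact near hp hg hφ
  · intro h
    have h1 : ∀ N : ℕ, (p : ℤ) ^ N ∣ F p G 1 - (Nat.card G : ℤ) * zp p G := by
      intro N
      have hg : 2 ≤ Nat.totient (p ^ N) + 1 := by
        have : 0 < Nat.totient (p ^ N) := Nat.totient_pos.2 (pow_pos hp.pos _)
        omega
      have hφ : Nat.totient (p ^ N) ∣ 2 * (Nat.totient (p ^ N) + 1) - 2 :=
        ⟨2, by omega⟩
      have h2 := h N _ hg hφ
      have h3 := near (G := G) hp hg hφ
      have e : F p G 1 - (Nat.card G : ℤ) * zp p G =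
          (F p G (Nat.totient (p ^ N) + 1) - (Nat.card G : ℤ) * zp p G) -
            (F p G (Nat.totient (p ^ N) + 1) - F p G 1) := by ring
      rw [e]
      exact dvd_sub h3 h2
    set D : ℤ := F p G 1 - (Nat.card G : ℤ) * zp p G with hD
    have h2 : D = 0 := by
      refine Int.eq_zero_of_abs_lt_dvd (h1 D.natAbs) ?_
      have h3 : D.natAbs < 2 ^ D.natAbs := Nat.lt_two_pow_self
      have h4 : 2 ^ D.natAbs ≤ p ^ D.natAbs := Nat.pow_le_pow_left hp.two_le _
      rw [Int.abs_eq_natAbs]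
      exact_mod_cast h3.trans_le h4
    linarith

/-- one congruence is enough -/
theorem one_congruence [Finite G] {p : ℕ} (hp : p.Prime) {N g : ℕ} (hg : 2 ≤ g)
    (hφ : Nat.totient (p ^ N) ∣ 2 * g - 2)
    (hN : |F p G 1| + (Nat.card G : ℤ) * Nat.card (ConjClasses G) < (p : ℤ) ^ N) :
    (altSum p G = (Nat.card G : ℤ) * ((Nat.card (ConjClasses G) : ℤ) - (zp p G : ℤ))) ↔
      (p : ℤ) ^ N ∣ F p G g - F p G 1 := by
  constructor
  · intro h
    exact (continuity hp).1 h N g hg hφ
  · intro h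
    rw [krc_iff]
    have h3 := near (G := G) hp hg hφ
    have e : F p G 1 - (Nat.card G : ℤ) * zp p G =
        (F p G g - (Nat.card G : ℤ) * zp p G) - (F p G g - F p G 1) := by ring
    have h4 : (p : ℤ) ^ N ∣ F p G 1 - (Nat.card G : ℤ) * zp p G := by
      rw [e]
      exact dvd_sub h3 h
    have h5 : F p G 1 - (Nat.card G : ℤ) * zp p G = 0 := by
      refine Int.eq_zero_of_abs_lt_dvd h4 (lt_of_le_of_lt ?_ hN)
      refine (abs_sub _ _).trans ?_
      have h6 : (zp p G : ℤ) ≤ Nat.card (ConjClasses G) := by exact_mod_cast zp_le hp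
      have h7 : |(Nat.card G : ℤ) * zp p G| = (Nat.card G : ℤ) * zp p G :=
        abs_of_nonneg (by positivity)
      rw [h7]
      have h8 : (0 : ℤ) ≤ Nat.card G := by positivity
      nlinarith
    linarith

end

end Pool.Agent.TH986.SG
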