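import Pool.Agent.TH986.SG.Wt

set_option autoImplicit false

/-!
# Commuting pairs with a `p`-regular first element
-/

namespace Pool.Agent.TH986.SG

open Pool.Agent.TH195.KR

section

variable {G : Type} [Group G]

/-- the number of pairs of commuting elements the first of which has order prime to `p` -/
noncomputable def regPairs (p : ℕ) (G : Type) [Group G] : ℕ :=
  Nat.card {x : G × G // x.1 * x.2 = x.2 * x.1 ∧ (orderOf x.1).Coprime p}

/-- the elements of order prime to `p`, with the action of `G` by conjugation -/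
def regSub (p : ℕ) (G : Type) [Group G] : SubMulAction (ConjAct G) G where
  carrier := {x | (orderOf x).Coprime p}
  smul_mem' := by
    intro c x hx
    have : orderOf (c • x) = orderOf x := (MulAut.conj (ConjAct.ofConjAct c)).orderOf_eq x
    show (orderOf (c • x)).Coprime p
    rw [this]
    exact hx

theorem regPairs_eq (p : ℕ) : regPairs p G = Nat.card G * kreg p G := by
  have h1 : regPairs p G =
      Nat.card (Σ a : ConjAct G, MulAction.fixedBy (regSub p G) a) := by
    unfold regPairs
    refine Nat.card_congr ⟨fun x => ⟨ConjAct.toConjAct x.1.2, ⟨⟨x.1.1, x.2.2⟩, ?_⟩⟩,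
      fun y => ⟨(y.2.1.1, ConjAct.ofConjAct y.1), ?_, y.2.1.2⟩, fun x => rfl, fun y => rfl⟩
    · apply Subtype.ext
      show x.1.2 * x.1.1 * x.1.2⁻¹ = x.1.1
      rw [mul_inv_eq_iff_eq_mul]
      exact x.2.1.symm
    · have h := congrArg Subtype.val y.2.2
      have h' : ConjAct.ofConjAct y.1 * (y.2.1.1 : G) * (ConjAct.ofConjAct y.1)⁻¹ = y.2.1.1 := h
      rw [mul_inv_eq_iff_eq_mul] at h'
      exact h'.symm
  rw [h1, Nat.card_congr (MulAction.sigmaFixedByEquivOrbitsProdGroup (ConjAct G) (regSub p G)),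
    Nat.card_prod, mul_comm]
  congr 1
  unfold kreg
  refine Nat.card_congr (Equiv.ofBijective (fun c => Quotient.liftOn' c
    (fun x => (⟨ConjClasses.mk (x : G), x, rfl, x.2⟩ :
      {c : ConjClasses G // ∃ x : G, ConjClasses.mk x = c ∧ (orderOf x).Coprime p})) ?_) ⟨?_, ?_⟩)
  · intro a b hab
    apply Subtype.ext
    rw [MulAction.orbitRel_apply] at hab
    obtain ⟨c, hc⟩ := hab
    have h : ConjAct.ofConjAct c * (b : G) * (ConjAct.ofConjAct c)⁻¹ = a := congrArg Subtype.val hc
    show ConjClasses.mk (a : G) = ConjClasses.mk (b : G)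
    rw [ConjClasses.mk_eq_mk_iff_isConj, isConj_comm, isConj_iff]
    exact ⟨_, h⟩
  · intro c d
    induction c using Quotient.inductionOn'
    induction d using Quotient.inductionOn'
    rename_i a b
    intro h
    refine Quotient.sound' ?_
    have h2 : ConjClasses.mk (a : G) = ConjClasses.mk (b : G) := congrArg Subtype.val h
    rw [ConjClasses.mk_eq_mk_iff_isConj, isConj_comm, isConj_iff] at h2
    obtain ⟨c, hc⟩ := h2
    rw [MulAction.orbitRel_apply]
    exact ⟨ConjAct.toConjAct c, Subtype.ext hc⟩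
  · rintro ⟨c, x, rfl, hx⟩
    exact ⟨Quotient.mk'' ⟨x, hx⟩, rfl⟩

/-- the weight conjecture for `G` and one congruence -/
theorem awc_one [Finite G] {p : ℕ} (hp : p.Prime) {R : Finset (Subgroup G)}
    (hR : IsRepSystem p G R) {N g : ℕ} (hg : 2 ≤ g) (hφ : Nat.totient (p ^ N) ∣ 2 * g - 2)
    (h1 : S p G 1 < p ^ N) (h2 : regPairs p G < p ^ N) :
    kreg p G = weights p G R ↔ S p G g ≡ regPairs p G [MOD p ^ N] := by
  have h3 := S_modEq hp hR hg hφ
  constructor
  · intro h
    rw [regPairs_eq, h]
    exact h3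
  · intro h
    have h4 : Nat.card G * weights p G R = regPairs p G :=
      Nat.ModEq.eq_of_lt_of_lt (h3.symm.trans h) ((weights_le hp hR).trans_lt h1) h2
    rw [regPairs_eq] at h4
    exact (Nat.eq_of_mul_eq_mul_left Nat.card_pos h4).symm

/-- the weight conjecture for `G` and all the congruences -/
theorem awc_all [Finite G] {p : ℕ} (hp : p.Prime) {R : Finset (Subgroup G)}
    (hR : IsRepSystem p G R) :
    kreg p G = weights p G R ↔ ∀ N g : ℕ, 2 ≤ g → Nat.totient (p ^ N) ∣ 2 * g - 2 →
      S p G g ≡ regPairs p G [MOD p ^ N] := by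
  constructor
  · intro h N g hg hφ
    rw [regPairs_eq, h]
    exact S_modEq hp hR hg hφ
  · intro h
    set N := S p G 1 + regPairs p G with hN
    have h3 : N < p ^ N := lt_of_lt_of_le Nat.lt_two_pow_self (Nat.pow_le_pow_left hp.two_le _)
    have hg : 2 ≤ Nat.totient (p ^ N) + 1 := by
      have : 0 < Nat.totient (p ^ N) := Nat.totient_pos.2 (pow_pos hp.pos _)
      omega
    have hφ : Nat.totient (p ^ N) ∣ 2 * (Nat.totient (p ^ N) + 1) - 2 := ⟨2, by omega⟩
    exact (awc_one hp hR hg hφ (by omega) (by omega)).2 (h N _ hg hφ)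

end

end Pool.Agent.TH986.SG
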