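import Pool.Agent.TH986.SG.Main

set_option autoImplicit false

/-!
# The weight conjecture and homomorphisms from surface groups
-/

namespace Pool.Agent.TH986.SG

open Pool.Agent.TH195.KR

section

variable {G : Type} [Group G]

/-- the number of homomorphisms from the fundamental group of the closed orientable surface of genus
`g` to `H`: the number of the `a_1, b_1, …, a_g, b_g` in `H` with `[a_1, b_1] ⋯ [a_g, b_g] = 1` -/
noncomputable def surf (H : Type) [Group H] (g : ℕ) : ℕ :=
  Nat.card {x : Fin g → H × H // sw x = 1}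

/-- the group `N_G(Q) / Q` -/
abbrev NQ (Q : Subgroup G) : Type :=
  Subgroup.normalizer (Q : Set G) ⧸ Q.subgroupOf (Subgroup.normalizer (Q : Set G))

/-- the sum over all `p`-subgroups `Q` of `|Q|` times the number of homomorphisms from the surface
group to `N_G(Q) / Q` -/
noncomputable def S (p : ℕ) (G : Type) [Group G] (g : ℕ) : ℕ :=
  ∑ᶠ (Q : Subgroup G) (_ : IsPGroup p Q), Nat.card Q * surf (NQ Q) g

/-- `R` is a system of representatives for the conjugacy classes of `p`-subgroups of `G`. -/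
structure IsRepSystem (p : ℕ) (G : Type) [Group G] (R : Finset (Subgroup G)) : Prop where
  pgroup : ∀ Q ∈ R, IsPGroup p Q
  covers : ∀ P : Subgroup G, IsPGroup p P →
    ∃ Q ∈ R, ∃ g : G, P = Q.map (MulAut.conj g).toMonoidHom
  unique : ∀ Q₁ ∈ R, ∀ Q₂ ∈ R, (∃ g : G, Q₂ = Q₁.map (MulAut.conj g).toMonoidHom) → Q₁ = Q₂

/-- the number of `p`-weights of `G` up to conjugacy: the sum over the `Q` in `R` of the number of
the irreducible complex characters of `N_G(Q) / Q` of `p`-defect zero -/
noncomputable def weights (p : ℕ) (G : Type) [Group G] (R : Finset (Subgroup G)) : ℕ :=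
  ∑ Q ∈ R, zp p (NQ Q)

/-- the number of conjugacy classes of elements of order prime to `p` -/
noncomputable def kreg (p : ℕ) (G : Type) [Group G] : ℕ :=
  Nat.card {c : ConjClasses G // ∃ x : G, ConjClasses.mk x = c ∧ (orderOf x).Coprime p}

theorem mem_conj {Q : Subgroup G} {g x : G} :
    x ∈ Q.map (MulAut.conj g).toMonoidHom ↔ g⁻¹ * x * g ∈ Q := by
  rw [Subgroup.mem_map]
  constructor
  · rintro ⟨y, hy, rfl⟩
    have : g⁻¹ * (MulAut.conj g).toMonoidHom y * g = y := by
      show g⁻¹ * (g * y * g⁻¹) * g = y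
      group
    rwa [this]
  · intro h
    refine ⟨_, h, ?_⟩
    show g * (g⁻¹ * x * g) * g⁻¹ = x
    group

theorem conj_eq_iff {Q : Subgroup G} {g h : G} :
    Q.map (MulAut.conj g).toMonoidHom = Q.map (MulAut.conj h).toMonoidHom ↔
      g⁻¹ * h ∈ Subgroup.normalizer (Q : Set G) := by
  rw [Subgroup.mem_normalizer_iff]
  constructor
  · intro e y
    have h1 : h * y * h⁻¹ ∈ Q.map (MulAut.conj g).toMonoidHom ↔
        h * y * h⁻¹ ∈ Q.map (MulAut.conj h).toMonoidHom := by rw [e]
    rw [mem_conj, mem_conj] at h1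
    have e1 : h⁻¹ * (h * y * h⁻¹) * h = y := by group
    have e2 : g⁻¹ * (h * y * h⁻¹) * g = g⁻¹ * h * y * (g⁻¹ * h)⁻¹ := by group
    rw [e1, e2] at h1
    exact h1.symm
  · intro h1
    ext x
    rw [mem_conj, mem_conj]
    have h2 := h1 (h⁻¹ * x * h)
    have e2 : g⁻¹ * h * (h⁻¹ * x * h) * (g⁻¹ * h)⁻¹ = g⁻¹ * x * g := by group
    rw [e2] at h2
    exact h2.symm

theorem card_conj [Finite G] (Q : Subgroup G) :
    Nat.card {P : Subgroup G // ∃ g : G, P = Q.map (MulAut.conj g).toMonoidHom} *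
      Nat.card (Subgroup.normalizer (Q : Set G)) = Nat.card G := by
  rw [Subgroup.card_eq_card_quotient_mul_card_subgroup (Subgroup.normalizer (Q : Set G))]
  congr 1
  symm
  refine Nat.card_congr (Equiv.ofBijective (fun c => Quotient.liftOn' c
    (fun g => (⟨Q.map (MulAut.conj g).toMonoidHom, g, rfl⟩ :
      {P : Subgroup G // ∃ g : G, P = Q.map (MulAut.conj g).toMonoidHom})) ?_) ⟨?_, ?_⟩)
  · intro a b hab
    rw [QuotientGroup.leftRel_apply] at hab
    exact Subtype.ext (conj_eq_iff.2 hab)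
  · intro c d
    induction c using Quotient.inductionOn'
    induction d using Quotient.inductionOn'
    intro h
    refine Quotient.sound' ?_
    rw [QuotientGroup.leftRel_apply]
    exact conj_eq_iff.1 (congrArg Subtype.val h)
  · rintro ⟨P, g, rfl⟩
    exact ⟨Quotient.mk'' g, rfl⟩

theorem conj_mem_normalizer {Q : Subgroup G} {g n : G} :
    g * n * g⁻¹ ∈ Subgroup.normalizer ((Q.map (MulAut.conj g).toMonoidHom : Subgroup G) : Set G) ↔
      n ∈ Subgroup.normalizer (Q : Set G) := by
  rw [Subgroup.mem_normalizer_iff, Subgroup.mem_normalizer_iff]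
  constructor
  · intro h y
    have h1 := h (g * y * g⁻¹)
    rw [mem_conj, mem_conj] at h1
    have e1 : g⁻¹ * (g * y * g⁻¹) * g = y := by group
    have e2 : g⁻¹ * (g * n * g⁻¹ * (g * y * g⁻¹) * (g * n * g⁻¹)⁻¹) * g = n * y * n⁻¹ := by group
    rwa [e1, e2] at h1
  · intro h y
    rw [mem_conj, mem_conj]
    have h1 := h (g⁻¹ * y * g)
    have e2 : g⁻¹ * (g * n * g⁻¹ * y * (g * n * g⁻¹)⁻¹) * g =
      n * (g⁻¹ * y * g) * n⁻¹ := by group
    rwa [e2]

/-- conjugation from the normalizer of `Q` to the normalizer of the conjugate -/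
def nEquiv (Q : Subgroup G) (g : G) : Subgroup.normalizer (Q : Set G) ≃*
    Subgroup.normalizer ((Q.map (MulAut.conj g).toMonoidHom : Subgroup G) : Set G) where
  toFun n := ⟨g * n * g⁻¹, conj_mem_normalizer.2 n.2⟩
  invFun n := ⟨g⁻¹ * n * g, by
    refine (conj_mem_normalizer (g := g)).1 ?_
    have e : g * (g⁻¹ * (n : G) * g) * g⁻¹ = n := by group
    rw [e]
    exact n.2⟩
  left_inv n := Subtype.ext (by show g⁻¹ * (g * (n : G) * g⁻¹) * g = n; group)
  right_inv n := Subtype.ext (by show g * (g⁻¹ * (n : G) * g) * g⁻¹ = n; group)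
  map_mul' m n := Subtype.ext (by
    show g * ((m : G) * n) * g⁻¹ = g * m * g⁻¹ * (g * n * g⁻¹)
    group)

theorem map_nEquiv (Q : Subgroup G) (g : G) :
    (Q.subgroupOf (Subgroup.normalizer (Q : Set G))).map (nEquiv Q g : _ →* _) =
      (Q.map (MulAut.conj g).toMonoidHom).subgroupOf
        (Subgroup.normalizer ((Q.map (MulAut.conj g).toMonoidHom : Subgroup G) : Set G)) := by
  ext x
  rw [Subgroup.mem_map, Subgroup.mem_subgroupOf, mem_conj]
  constructor
  · rintro ⟨y, hy, rfl⟩
    have h1 : g⁻¹ * (g * (y : G) * g⁻¹) * g = y := by group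
    show g⁻¹ * (g * (y : G) * g⁻¹) * g ∈ Q
    rw [h1]
    exact hy
  · intro h
    refine ⟨(nEquiv Q g).symm x, ?_, ?_⟩
    · rw [Subgroup.mem_subgroupOf]
      exact h
    · exact (nEquiv Q g).apply_symm_apply x

/-- the groups `N_G(Q) / Q` of conjugate subgroups are isomorphic -/
noncomputable def nqEquiv (Q : Subgroup G) (g : G) :
    NQ Q ≃* NQ (Q.map (MulAut.conj g).toMonoidHom) :=
  QuotientGroup.congr _ _ (nEquiv Q g) (map_nEquiv Q g)

theorem defectZero_congr {p : ℕ} {H K : Type} [Group H] [Group K] (e : H ≃* K) {f : K → ℂ}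
    (hf : IsDefectZeroChar p K f) : IsDefectZeroChar p H (f ∘ e) := by
  obtain ⟨n, ρ, hn, hd, hi, rfl⟩ := hf
  refine ⟨n, ρ.comp (e : H →* K), hn, by rwa [Nat.card_congr e.toEquiv], fun W hW => ?_, rfl⟩
  refine hi W fun k v hv => ?_
  have := hW (e.symm k) v hv
  simpa using this

theorem zp_congr {p : ℕ} {H K : Type} [Group H] [Group K] (e : H ≃* K) : zp p H = zp p K := by
  unfold zp
  refine Nat.card_congr ⟨fun f => ⟨f.1 ∘ e.symm, defectZero_congr e.symm f.2⟩,
    fun f => ⟨f.1 ∘ e, defectZero_congr e f.2⟩, fun f => ?_, fun f => ?_⟩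
  · apply Subtype.ext
    funext x
    simp
  · apply Subtype.ext
    funext x
    simp

theorem S_eq [Finite G] (p g : ℕ) [Fintype (Subgroup G)] [DecidablePred fun Q : Subgroup G => IsPGroup p Q] :
    S p G g = ∑ Q ∈ Finset.univ.filter fun Q : Subgroup G => IsPGroup p Q, Nat.card Q * surf (NQ Q) g := by
  unfold S
  exact finsum_cond_eq_sum_of_cond_iff _ fun {x} _ => by simp

/-- the sum over all `p`-subgroups and the sum over representatives -/
theorem sum_conjugates [Finite G] {p : ℕ} {R : Finset (Subgroup G)} (hR : IsRepSystem p G R)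
    [Fintype (Subgroup G)] [DecidablePred fun Q : Subgroup G => IsPGroup p Q] :
    ∑ Q ∈ Finset.univ.filter fun Q : Subgroup G => IsPGroup p Q, Nat.card (Subgroup.normalizer (Q : Set G)) * zp p (NQ Q) =
      Nat.card G * weights p G R := by
  classical
  have h1 : (Finset.univ.filter fun Q : Subgroup G => IsPGroup p Q) =
      R.biUnion fun Q => Finset.univ.filter fun P : Subgroup G =>
        ∃ g : G, P = Q.map (MulAut.conj g).toMonoidHom := by
    ext P
    simp only [Finset.mem_filter, Finset.mem_univ, true_and, Finset.mem_biUnion]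
    constructor
    · intro h
      exact hR.covers P h
    · rintro ⟨Q, hQ, g, rfl⟩
      exact (hR.pgroup Q hQ).map _
  rw [h1, Finset.sum_biUnion]
  · unfold weights
    rw [Finset.mul_sum]
    refine Finset.sum_congr rfl fun Q _ => ?_
    rw [Finset.sum_congr rfl (g := fun _ => Nat.card (Subgroup.normalizer (Q : Set G)) * zp p (NQ Q)),
      Finset.sum_const, smul_eq_mul, ← mul_assoc]
    · congr 1
      rw [← card_conj Q]
      congr 1
      rw [Nat.card_eq_fintype_card, Fintype.card_subtype]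
    · intro P hP
      obtain ⟨g, rfl⟩ := (Finset.mem_filter.1 hP).2
      rw [← zp_congr (nqEquiv Q g), ← Nat.card_congr (nEquiv Q g).toEquiv]
  · intro Q1 h1 Q2 h2 hne
    rw [Function.onFun, Finset.disjoint_left]
    intro P hP1 hP2
    obtain ⟨g1, e1⟩ := (Finset.mem_filter.1 hP1).2
    obtain ⟨g2, e2⟩ := (Finset.mem_filter.1 hP2).2
    refine hne (hR.unique Q1 h1 Q2 h2 ⟨g2⁻¹ * g1, ?_⟩)
    ext x
    have h3 : g2 * x * g2⁻¹ ∈ P ↔ g2 * x * g2⁻¹ ∈ P := Iff.rfl
    nth_rewrite 1 [e1] at h3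
    rw [e2, mem_conj, mem_conj] at h3
    rw [mem_conj]
    have e3 : g2⁻¹ * (g2 * x * g2⁻¹) * g2 = x := by group
    have e4 : g1⁻¹ * (g2 * x * g2⁻¹) * g1 = (g2⁻¹ * g1)⁻¹ * x * (g2⁻¹ * g1) := by group
    rw [e3, e4] at h3
    exact h3.symm

theorem card_mul_NQ [Finite G] (Q : Subgroup G) :
    Nat.card Q * Nat.card (NQ Q) = Nat.card (Subgroup.normalizer (Q : Set G)) := by
  rw [Subgroup.card_eq_card_quotient_mul_card_subgroup
    (Q.subgroupOf (Subgroup.normalizer (Q : Set G))), mul_comm]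
  congr 1
  exact (Nat.card_congr (Subgroup.subgroupOfEquivOfLe Subgroup.le_normalizer).toEquiv).symm

/-- the weights near genus one -/
theorem S_modEq [Finite G] {p : ℕ} (hp : p.Prime) {R : Finset (Subgroup G)}
    (hR : IsRepSystem p G R) {N g : ℕ} (hg : 2 ≤ g) (hφ : Nat.totient (p ^ N) ∣ 2 * g - 2) :
    S p G g ≡ Nat.card G * weights p G R [MOD p ^ N] := by
  classical
  have := Fintype.ofFinite (Subgroup G)
  rw [S_eq, ← sum_conjugates hR]
  have h2 : ∀ s : Finset (Subgroup G), ∑ Q ∈ s, Nat.card Q * surf (NQ Q) g ≡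
      ∑ Q ∈ s, Nat.card (Subgroup.normalizer (Q : Set G)) * zp p (NQ Q) [MOD p ^ N] := by
    intro s
    induction s using Finset.induction_on with
    | empty => rfl
    | insert Q s hQ ih =>
      rw [Finset.sum_insert hQ, Finset.sum_insert hQ]
      refine Nat.ModEq.add ?_ ih
      have := Fintype.ofFinite (NQ Q)
      rw [← card_mul_NQ, mul_assoc]
      exact Nat.ModEq.mul_left _ (hom_modEq hp hg hφ)
  exact h2 _

theorem surf_one [Finite G] : surf G 1 = Nat.card (ConjClasses G) * Nat.card G := by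
  unfold surf
  rw [← homs_empty, homs_one_empty]

theorem weights_le [Finite G] {p : ℕ} (hp : p.Prime) {R : Finset (Subgroup G)}
    (hR : IsRepSystem p G R) : Nat.card G * weights p G R ≤ S p G 1 := by
  classical
  have := Fintype.ofFinite (Subgroup G)
  rw [S_eq, ← sum_conjugates hR]
  refine Finset.sum_le_sum fun Q _ => ?_
  rw [surf_one, ← card_mul_NQ, mul_assoc, mul_comm (Nat.card (ConjClasses (NQ Q)))]
  exact Nat.mul_le_mul_left _ (Nat.mul_le_mul_left _ (zp_le hp))

end

end Pool.Agent.TH986.SG
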