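import Pool.Agent.TH986.SG.Cnt

set_option autoImplicit false

/-!
# The number of homomorphisms from a surface group and the characters of defect zero
-/

open CategoryTheory

namespace Pool.Agent.TH986.SG

open Pool.Agent.W367.SN Pool.Agent.TH195.KR Pool.Agent.Helper199.RepDim

section

variable {H : Type} [Group H]

theorem exists_irr {χ : H → ℂ} (h : χ ∈ IrrC H) :
    ∃ n : ℕ, 0 < n ∧ ∃ ρ : H →* Matrix (Fin n) (Fin n) ℂ, IsIrr ρ ∧ χ = fun g => (ρ g).trace := by
  classical
  obtain ⟨V, hV, rfl⟩ := h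
  let b := Module.finBasis ℂ V
  let e := LinearMap.toMatrixAlgEquiv b
  refine ⟨Module.finrank ℂ V, ?_, e.toAlgHom.toRingHom.toMonoidHom.comp V.ρ, ?_, ?_⟩
  · obtain ⟨v, hv⟩ := simple_nonzero V
    have : Nontrivial V := ⟨⟨v, 0, hv⟩⟩
    exact Module.finrank_pos
  · intro W hW
    let W' : Submodule ℂ V := W.comap (b.equivFun : V →ₗ[ℂ] (Fin (Module.finrank ℂ V) → ℂ))
    have h1 : ∀ g v, (b.equivFun (V.ρ g v)) =
        ((e.toAlgHom.toRingHom.toMonoidHom.comp V.ρ) g).mulVec (b.equivFun v) := by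
      intro g v
      exact (LinearMap.toMatrix_mulVec_repr b b (V.ρ g) v).symm
    have h2 : ∀ g, ∀ w ∈ W', V.ρ g w ∈ W' := by
      intro g w hw
      change b.equivFun (V.ρ g w) ∈ W
      rw [h1]
      exact hW g _ hw
    by_cases h0 : W' = ⊥
    · left
      rw [eq_bot_iff]
      intro w hw
      have h3 : b.equivFun.symm w ∈ W' := by
        change b.equivFun (b.equivFun.symm w) ∈ W
        rwa [LinearEquiv.apply_symm_apply]
      rw [h0, Submodule.mem_bot] at h3
      rw [Submodule.mem_bot]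
      have h4 := congrArg b.equivFun h3
      rwa [LinearEquiv.apply_symm_apply, map_zero] at h4
    · right
      have h3 := simple_top V W' h2 h0
      rw [eq_top_iff]
      intro w _
      have h4 : b.equivFun.symm w ∈ W' := h3 ▸ Submodule.mem_top
      change b.equivFun (b.equivFun.symm w) ∈ W at h4
      rwa [LinearEquiv.apply_symm_apply] at h4
  · funext g
    exact LinearMap.trace_eq_matrix_trace ℂ b (V.ρ g)

theorem defectZero_iff [Fintype H] (p : ℕ) (f : H → ℂ) : IsDefectZeroChar p H f ↔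
    f ∈ IrrC H ∧ ∃ n : ℕ, 0 < n ∧ f 1 = n ∧ p ^ ((Nat.card H).factorization p) ∣ n := by
  constructor
  · rintro ⟨n, ρ, hn, hd, hi, rfl⟩
    have hs : Sc ρ := fun X hX => scalar_of_comm hn ρ hi X hX
    refine ⟨mem_irr_of_matrix ρ (sum_trace hn hs), n, hn, ?_, hd⟩
    simp
  · rintro ⟨h, n, hn, h1, hd⟩
    obtain ⟨n', hn', ρ, hi, rfl⟩ := exists_irr h
    have h2 : n' = n := by
      have h3 : ((n' : ℕ) : ℂ) = n := by
        rw [← h1]
        simp
      exact_mod_cast h3
    subst h2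
    exact ⟨n', ρ, hn', hd, hi, rfl⟩

theorem zp_eq [Fintype H] {p : ℕ} (hp : p.Prime) (I : Finset (H → ℂ)) (q : (H → ℂ) → ℕ)
    (hI : ∀ χ, χ ∈ I ↔ χ ∈ IrrC H)
    (hq : ∀ χ ∈ I, ∃ n : ℕ, 0 < n ∧ χ 1 = n ∧ n * q χ = Fintype.card H) :
    zp p H = (I.filter fun χ => ¬ p ∣ q χ).card := by
  have hH0 : Nat.card H ≠ 0 := Nat.card_pos.ne'
  have h1 : ∀ f : H → ℂ, IsDefectZeroChar p H f ↔ f ∈ I.filter fun χ => ¬ p ∣ q χ := by
    intro f
    rw [defectZero_iff, Finset.mem_filter, hI]
    refine and_congr_right fun hf => ?_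
    obtain ⟨n, hn, hn1, hnq⟩ := hq f ((hI f).2 hf)
    have hq0 : q f ≠ 0 := by
      intro h0
      rw [h0, mul_zero] at hnq
      exact Fintype.card_ne_zero hnq.symm
    rw [Nat.card_eq_fintype_card] at hH0 ⊢
    constructor
    · rintro ⟨m, hm, hm1, hmd⟩ hpq
      have e : m = n := by
        have : (m : ℂ) = n := hm1.symm.trans hn1
        exact_mod_cast this
      subst e
      have h2 : p ^ ((Fintype.card H).factorization p + 1) ∣ Fintype.card H := by
        rw [← hnq, pow_succ]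
        exact mul_dvd_mul (by rw [hnq]; exact hmd) hpq
      have h3 := (hp.pow_dvd_iff_le_factorization hH0).1 h2
      omega
    · intro hpq
      refine ⟨n, hn, hn1, ?_⟩
      rw [← hnq, Nat.factorization_mul hn.ne' hq0, Finsupp.add_apply,
        Nat.factorization_eq_zero_of_not_dvd hpq, add_zero]
      exact Nat.ordProj_dvd n p
  unfold zp
  rw [Nat.card_congr (Equiv.subtypeEquivRight h1), Nat.card_eq_fintype_card, Fintype.card_coe]

theorem pow_modEq {p : ℕ} (hp : p.Prime) {N m a : ℕ} (hm : 0 < m) (hφ : Nat.totient (p ^ N) ∣ m) :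
    a ^ m ≡ (if p ∣ a then 0 else 1) [MOD p ^ N] := by
  split_ifs with h
  · have hN : N ≤ m := by
      rcases Nat.eq_zero_or_pos N with rfl | hN
      · exact Nat.zero_le _
      · refine le_trans ?_ (Nat.le_of_dvd hm hφ)
        rw [Nat.totient_prime_pow hp hN]
        have h1 : N - 1 < 2 ^ (N - 1) := Nat.lt_two_pow_self
        have h2 : 2 ^ (N - 1) ≤ p ^ (N - 1) := Nat.pow_le_pow_left hp.two_le _
        have h3 : 1 ≤ p - 1 := by have := hp.two_le; omega
        calc N ≤ 2 ^ (N - 1) := by omega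
          _ ≤ p ^ (N - 1) := h2
          _ ≤ p ^ (N - 1) * (p - 1) := Nat.le_mul_of_pos_right _ h3
    rw [Nat.modEq_zero_iff_dvd]
    exact (pow_dvd_pow p hN).trans (pow_dvd_pow_of_dvd h m)
  · obtain ⟨k, rfl⟩ := hφ
    have h1 : a ^ Nat.totient (p ^ N) ≡ 1 [MOD p ^ N] :=
      Nat.ModEq.pow_totient (Nat.Coprime.pow_right N ((Nat.Prime.coprime_iff_not_dvd hp).2 h).symm)
    rw [pow_mul]
    simpa using h1.pow k

/-- the number of homomorphisms from a surface group, modulo powers of `p` -/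
theorem hom_modEq [Fintype H] {p : ℕ} (hp : p.Prime) {N g : ℕ} (hg : 2 ≤ g)
    (hφ : Nat.totient (p ^ N) ∣ 2 * g - 2) :
    Nat.card {x : Fin g → H × H // sw x = 1} ≡ Nat.card H * zp p H [MOD p ^ N] := by
  obtain ⟨I, q, hI, hq, h1⟩ := card_sw (H := H)
  rw [h1 g (by omega), zp_eq hp I q hI hq, Nat.card_eq_fintype_card, Finset.card_filter]
  refine Nat.ModEq.mul_left _ ?_
  have h2 : ∀ s : Finset (H → ℂ), ∑ χ ∈ s, q χ ^ (2 * g - 2) ≡
      ∑ χ ∈ s, (if ¬ p ∣ q χ then 1 else 0) [MOD p ^ N] := by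
    classical
    intro s
    induction s using Finset.induction_on with
    | empty => rfl
    | insert χ s hχ ih =>
      rw [Finset.sum_insert hχ, Finset.sum_insert hχ]
      refine Nat.ModEq.add ?_ ih
      have h3 := pow_modEq (a := q χ) hp (by omega : 0 < 2 * g - 2) hφ
      by_cases h4 : p ∣ q χ
      · simpa [h4] using h3
      · simpa [h4] using h3
  exact h2 I

end

end Pool.Agent.TH986.SG
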